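import Pool.Agent.H629.TA.Stm

set_option autoImplicit false

/-!
TA-DR: rules for draw.
-/

open Finset

namespace Pool.Agent.H152.TA.DR

open Pool.Agent.H629.TA

theorem t_DR : S_DR := by
  intro m s p
  have hmono : ∀ (f g : (Fin m → ℕ) → ℝ), (∀ a ∈ s, 0 ≤ p a) →
      (∀ j, (∀ l, j l ∈ s) → f j ≤ g j) → draw m s p f ≤ draw m s p g := by
    intro f g hp hfg
    unfold draw
    refine Finset.sum_le_sum fun j hj => ?_
    rw [Fintype.mem_piFinset] at hj
    exact mul_le_mul_of_nonneg_left (hfg j hj) (Finset.prod_nonneg fun l _ => hp _ (hj l))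
  refine ⟨?_, ?_, ?_, hmono, ?_, ?_⟩
  · intro c hp
    unfold draw
    rw [← Finset.sum_mul, ← Finset.prod_univ_sum (fun _ : Fin m => s) (fun _ a => p a)]
    simp [hp]
  · intro f g
    unfold draw
    rw [← Finset.sum_add_distrib]
    refine Finset.sum_congr rfl fun j _ => ?_
    ring
  · intro c f
    unfold draw
    rw [Finset.mul_sum]
    refine Finset.sum_congr rfl fun j _ => ?_
    ring
  · intro f g hfg
    unfold draw
    refine Finset.sum_congr rfl fun j hj => ?_
    rw [Fintype.mem_piFinset] at hj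
    rw [hfg j hj]
  · intro f hp
    unfold draw
    refine (Finset.abs_sum_le_sum_abs _ _).trans (Finset.sum_le_sum fun j hj => ?_)
    rw [Fintype.mem_piFinset] at hj
    rw [abs_mul, abs_of_nonneg (Finset.prod_nonneg fun l _ => hp _ (hj l))]

end Pool.Agent.H152.TA.DR
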