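import Pool.Agent.H629.TA.Stm

set_option autoImplicit false

/-!
TA-E4: the recursion for the variance of the number of triangles.
-/

open Finset

namespace Pool.Agent.H152.TA.E4

open Pool.Agent.H629.TA

theorem t_E4 : S_ER → S_SR → S_UP → S_TR → S_TW → S_E3 → S_VS → S_E4 := by
  intro hER hSR _hUP hTR _hTW hE3 hVS m δ hm hδ
  obtain ⟨c, C, hc, hC, hE⟩ := hE3 m δ hm hδ
  have hm1 : 1 ≤ m := by omega
  have hmpos : (0 : ℝ) < m := by exact_mod_cast hm1
  have hchi0 : 0 ≤ chi m δ := by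
    unfold chi
    positivity
  have hchi : chi m δ < 1 / 2 := by
    unfold chi
    rw [div_lt_iff₀ (by positivity)]
    linarith
  obtain ⟨e, he⟩ : ∃ e : ℝ, e = (2 - tt m δ) / 2 := ⟨_, rfl⟩
  have he0 : 0 < e := by
    rw [he]
    unfold tt
    linarith
  have he1 : e ≤ 1 := by
    rw [he]
    unfold tt
    linarith
  obtain ⟨C', hC', hV⟩ := hVS c (C + C ^ 2) e hc (by positivity) he0
  have hv0 : ∀ i, 0 ≤ vT m δ i := by
    intro i
    obtain ⟨r1, r2, r3, r4, r5, r6, r7, r8⟩ := hER m δ hm1 hδ i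
    have h1 := r4 (fun _ => 0) (fun h => ((tri m h (i + 2) : ℝ) - mT m δ i) ^ 2)
      (fun h _ => sq_nonneg _)
    rw [r1] at h1
    exact h1
  have hrec : ∀ i : ℕ, |vT m δ (i + 1) - vT m δ i - (mT m δ (i + 1) - mT m δ i)| ≤
      2 * Real.sqrt (vT m δ i) * ((C + C ^ 2) * (i + 2 : ℝ) ^ (-1 - e)) +
        (C + C ^ 2) * (i + 2 : ℝ) ^ (-1 - e) := by
    intro i
    obtain ⟨-, -, hl1, hl2, hl3, hl4, hl5⟩ := hE i
    obtain ⟨r1, r2, r3, r4, r5, r6, r7, r8⟩ := hER m δ hm1 hδ i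
    rw [← he] at hl4 hl5
    obtain ⟨la, hla⟩ : ∃ la : ℝ, la = mT m δ (i + 1) - mT m δ i := ⟨_, rfl⟩
    rw [← hla] at hl1 hl2 hl3 hl4 ⊢
    obtain ⟨s1, hs1⟩ : ∃ s1 : Hist m → ℝ, s1 = fun h =>
      step m δ (i + 2) (fun h => (xi m (i + 2) h : ℝ)) h := ⟨_, rfl⟩
    obtain ⟨s2, hs2⟩ : ∃ s2 : Hist m → ℝ, s2 = 
      step m δ (i + 2) (fun h => (xi m (i + 2) h : ℝ) * ((xi m (i + 2) h : ℝ) - 1)) := ⟨_, rfl⟩
    obtain ⟨T, hT⟩ : ∃ T : Hist m → ℝ, T = fun h => (tri m h (i + 2) : ℝ) - mT m δ i := ⟨_, rfl⟩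
    have hidx : i + 1 + 2 = i + 2 + 1 := by omega
    have hstep : ∀ h, Valid m h (i + 2) →
        step m δ (i + 2) (fun h => ((tri m h (i + 1 + 2) : ℝ) - mT m δ (i + 1)) ^ 2) h =
        T h ^ 2 + (2 * (T h * (s1 h - la)) + (la ^ 2 + ((1 - 2 * la) * s1 h + s2 h))) := by
      intro h hh
      obtain ⟨q1, q2, q3, q4, q5⟩ := hSR m δ hm1 hδ (i + 2) h (by omega) hh
      have b1 : step m δ (i + 2) (fun h => ((tri m h (i + 1 + 2) : ℝ) - mT m δ (i + 1)) ^ 2) h =
          step m δ (i + 2) (fun h' => (T h ^ 2 - 2 * T h * la + la ^ 2) +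
            ((2 * T h + 1 - 2 * la) * (xi m (i + 2) h' : ℝ) +
              (xi m (i + 2) h' : ℝ) * ((xi m (i + 2) h' : ℝ) - 1))) h := by
        refine q5 _ _ fun j hj => ?_
        obtain ⟨t1, t2, t3⟩ := hTR m (i + 2) h j (by omega) hj
        have t4 : (tri m (Function.update h (i + 2 + 1) j) (i + 1 + 2) : ℝ) =
            (tri m h (i + 2) : ℝ) + (xi m (i + 2) (Function.update h (i + 2 + 1) j) : ℝ) := by
          rw [hidx]
          unfold xi
          rw [t1, Nat.cast_sub t2]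
          ring
        show ((tri m (Function.update h (i + 2 + 1) j) (i + 1 + 2) : ℝ) - mT m δ (i + 1)) ^ 2 = _
        rw [t4, hT]
        have t5 : mT m δ (i + 1) = mT m δ i + la := by
          rw [hla]
          ring
        rw [t5]
        ring
      have b2 : step m δ (i + 2) (fun h' => (T h ^ 2 - 2 * T h * la + la ^ 2) +
            ((2 * T h + 1 - 2 * la) * (xi m (i + 2) h' : ℝ) +
              (xi m (i + 2) h' : ℝ) * ((xi m (i + 2) h' : ℝ) - 1))) h =
          step m δ (i + 2) (fun _ => (T h ^ 2 - 2 * T h * la + la ^ 2)) h +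
          step m δ (i + 2) (fun h' => ((2 * T h + 1 - 2 * la) * (xi m (i + 2) h' : ℝ) +
              (xi m (i + 2) h' : ℝ) * ((xi m (i + 2) h' : ℝ) - 1))) h := q2 _ _
      have b3 : step m δ (i + 2) (fun h' => ((2 * T h + 1 - 2 * la) * (xi m (i + 2) h' : ℝ) +
              (xi m (i + 2) h' : ℝ) * ((xi m (i + 2) h' : ℝ) - 1))) h =
          step m δ (i + 2) (fun h' => ((2 * T h + 1 - 2 * la) * (xi m (i + 2) h' : ℝ))) h +
          step m δ (i + 2) (fun h' =>
              (xi m (i + 2) h' : ℝ) * ((xi m (i + 2) h' : ℝ) - 1)) h := q2 _ _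
      have b4 : step m δ (i + 2) (fun h' => ((2 * T h + 1 - 2 * la) * (xi m (i + 2) h' : ℝ))) h =
          (2 * T h + 1 - 2 * la) * s1 h := by
        rw [hs1]
        exact q3 _ _
      have b5 : step m δ (i + 2) (fun _ => (T h ^ 2 - 2 * T h * la + la ^ 2)) h =
          (T h ^ 2 - 2 * T h * la + la ^ 2) := q1 _
      have b6 : step m δ (i + 2) (fun h' =>
              (xi m (i + 2) h' : ℝ) * ((xi m (i + 2) h' : ℝ) - 1)) h = s2 h := by rw [hs2]
      rw [b1, b2, b3, b4, b5, b6]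
      ring
    have hs2n : 0 ≤ Ex m δ i s2 := by
      have h1 := r4 (fun _ => 0) s2 (fun h hh => by
        obtain ⟨q1, q2, q3, q4, q5⟩ := hSR m δ hm1 hδ (i + 2) h (by omega) hh
        have h2 := q4 (fun _ => 0) (fun h => (xi m (i + 2) h : ℝ) * ((xi m (i + 2) h : ℝ) - 1))
          (fun j _ => by
            show (0 : ℝ) ≤ (xi m (i + 2) (Function.update h (i + 2 + 1) j) : ℝ) *
              ((xi m (i + 2) (Function.update h (i + 2 + 1) j) : ℝ) - 1)
            rcases Nat.eq_zero_or_pos (xi m (i + 2) (Function.update h (i + 2 + 1) j)) with h0 | h0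
            · rw [h0]
              simp
            · have h3 : (1 : ℝ) ≤ (xi m (i + 2) (Function.update h (i + 2 + 1) j) : ℝ) := by
                exact_mod_cast h0
              exact mul_nonneg (by linarith) (by linarith))
        rw [q1] at h2
        rw [hs2]
        exact h2)
      rw [r1] at h1
      exact h1
    have hexp : vT m δ (i + 1) = vT m δ i + (2 * Ex m δ i (fun h => T h * (s1 h - la)) +
        (la ^ 2 + ((1 - 2 * la) * Ex m δ i s1 + Ex m δ i s2))) := by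
      have d0 : vT m δ (i + 1) = Ex m δ i (step m δ (i + 2)
          (fun h => ((tri m h (i + 1 + 2) : ℝ) - mT m δ (i + 1)) ^ 2)) := rfl
      have d1 := r5 _ _ hstep
      have d2 : Ex m δ i (fun h => T h ^ 2 + (2 * (T h * (s1 h - la)) +
          (la ^ 2 + ((1 - 2 * la) * s1 h + s2 h)))) = Ex m δ i (fun h => T h ^ 2) +
          Ex m δ i (fun h => (2 * (T h * (s1 h - la)) +
          (la ^ 2 + ((1 - 2 * la) * s1 h + s2 h)))) := r2 _ _
      have d3 : Ex m δ i (fun h => (2 * (T h * (s1 h - la)) +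
          (la ^ 2 + ((1 - 2 * la) * s1 h + s2 h)))) =
          Ex m δ i (fun h => (2 * (T h * (s1 h - la)))) +
          Ex m δ i (fun h => (la ^ 2 + ((1 - 2 * la) * s1 h + s2 h))) := r2 _ _
      have d4 : Ex m δ i (fun h => (2 * (T h * (s1 h - la)))) =
          2 * Ex m δ i (fun h => T h * (s1 h - la)) := r3 _ _
      have d5 : Ex m δ i (fun h => (la ^ 2 + ((1 - 2 * la) * s1 h + s2 h))) =
          Ex m δ i (fun _ => la ^ 2) + Ex m δ i (fun h => ((1 - 2 * la) * s1 h + s2 h)) := r2 _ _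
      have d6 : Ex m δ i (fun h => ((1 - 2 * la) * s1 h + s2 h)) =
          Ex m δ i (fun h => ((1 - 2 * la) * s1 h)) + Ex m δ i s2 := r2 _ _
      have d7 : Ex m δ i (fun h => ((1 - 2 * la) * s1 h)) = (1 - 2 * la) * Ex m δ i s1 := r3 _ _
      have d8 : Ex m δ i (fun _ => la ^ 2) = la ^ 2 := r1 _
      have d9 : vT m δ i = Ex m δ i (fun h => T h ^ 2) := by
        rw [hT]
        rfl
      rw [d0, d9]
      refine d1.trans ?_
      rw [d2, d3, d4, d5, d6, d7, d8]
    have hs1e : Ex m δ i s1 = la := by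
      rw [hs1]
      exact hl3.symm
    rw [hs1e] at hexp
    have hcs := r7 T (fun h => s1 h - la)
    have hq : Ex m δ i (fun h => (s1 h - la) ^ 2) ≤ (C * (i + 2 : ℝ) ^ (-1 - e)) ^ 2 := by
      rw [hs1]
      exact hl4
    have hTv : Ex m δ i (fun h => T h ^ 2) = vT m δ i := by
      rw [hT]
      rfl
    rw [hTv] at hcs
    have hpw : (0 : ℝ) < (i + 2 : ℝ) ^ (-1 - e) := Real.rpow_pos_of_pos (by positivity) _
    have hab : |Ex m δ i (fun h => T h * (s1 h - la))| ≤
        Real.sqrt (vT m δ i) * (C * (i + 2 : ℝ) ^ (-1 - e)) := by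
      apply abs_le_of_sq_le_sq _ (by positivity)
      rw [mul_pow, Real.sq_sqrt (hv0 i)]
      exact hcs.trans (mul_le_mul_of_nonneg_left hq (hv0 i))
    have hl5' : Ex m δ i s2 ≤ C * (i + 2 : ℝ) ^ (-1 - e) := by
      rw [hs2]
      exact hl5
    have hla0 : 0 ≤ la := le_trans (by positivity) hl1
    have hla2 : la ^ 2 ≤ C ^ 2 * (i + 2 : ℝ) ^ (-1 - e) := by
      have g1 : la ^ 2 ≤ (C / (i + 2)) ^ 2 := pow_le_pow_left₀ hla0 hl2 2
      have g2 : (C / ((i : ℝ) + 2)) ^ 2 = C ^ 2 * (i + 2 : ℝ) ^ (-2 : ℝ) := by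
        rw [div_pow, Real.rpow_neg (by positivity)]
        norm_num [div_eq_mul_inv]
      have g3 : (i + 2 : ℝ) ^ (-2 : ℝ) ≤ (i + 2 : ℝ) ^ (-1 - e) :=
        Real.rpow_le_rpow_of_exponent_le (by
          have : (0 : ℝ) ≤ i := Nat.cast_nonneg i
          linarith) (by linarith)
      rw [g2] at g1
      exact g1.trans (mul_le_mul_of_nonneg_left g3 (sq_nonneg C))
    have hdiff : vT m δ (i + 1) - vT m δ i - la =
        2 * Ex m δ i (fun h => T h * (s1 h - la)) + (Ex m δ i s2 - la ^ 2) := by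
      rw [hexp]
      ring
    rw [hdiff]
    refine (abs_add_le _ _).trans ?_
    have k1 : |2 * Ex m δ i (fun h => T h * (s1 h - la))| ≤
        2 * Real.sqrt (vT m δ i) * ((C + C ^ 2) * (i + 2 : ℝ) ^ (-1 - e)) := by
      rw [abs_mul, abs_of_pos (by norm_num : (0 : ℝ) < 2)]
      have k2 : Real.sqrt (vT m δ i) * (C * (i + 2 : ℝ) ^ (-1 - e)) ≤
          Real.sqrt (vT m δ i) * ((C + C ^ 2) * (i + 2 : ℝ) ^ (-1 - e)) :=
        mul_le_mul_of_nonneg_left
          (mul_le_mul_of_nonneg_right (by nlinarith [sq_nonneg C]) hpw.le) (Real.sqrt_nonneg _)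
      linarith
    have k3 : |Ex m δ i s2 - la ^ 2| ≤ (C + C ^ 2) * (i + 2 : ℝ) ^ (-1 - e) := by
      have k4 : 0 ≤ C * (i + 2 : ℝ) ^ (-1 - e) := by positivity
      have k5 : 0 ≤ C ^ 2 * (i + 2 : ℝ) ^ (-1 - e) := by positivity
      rw [abs_le]
      constructor
      · nlinarith
      · nlinarith [sq_nonneg la]
    linarith
  obtain ⟨hA, -⟩ := hV (vT m δ) (mT m δ) (fun i => mT m δ (i + 1) - mT m δ i) hv0
    (hE 0).2.1 (hE 0).1 (fun i => ⟨by ring, (hE i).2.2.1, by
      have h1 := (hE i).2.2.2.1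
      have h2 : C / ((i : ℝ) + 2) ≤ (C + C ^ 2) / ((i : ℝ) + 2) :=
        div_le_div_of_nonneg_right (by nlinarith [sq_nonneg C]) (by positivity)
      exact h1.trans h2⟩) hrec
  have hlog : ∀ i : ℕ, 1 ≤ i → c / 4 * Real.log (i + 2) ≤ mT m δ i := by
    intro i hi
    induction i, hi using Nat.le_induction with
    | base =>
      have h1 := (hE 0).2.2.1
      rw [(hE 0).1] at h1
      have h2 : Real.log ((1 : ℕ) + 2 : ℝ) ≤ 2 := by
        have := Real.log_le_sub_one_of_pos (show (0 : ℝ) < ((1 : ℕ) : ℝ) + 2 by norm_num)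
        push_cast at this ⊢
        linarith
      have h3 : c / 2 ≤ mT m δ 1 := by
        have h4 : c / ((0 : ℕ) + 2 : ℝ) = c / 2 := by norm_num
        rw [h4] at h1
        simpa using h1
      have h5 : c / 4 * Real.log ((1 : ℕ) + 2 : ℝ) ≤ c / 4 * 2 :=
        mul_le_mul_of_nonneg_left h2 (by positivity)
      linarith
    | succ i hi ih =>
      have h1 := (hE i).2.2.1
      have hip : (0 : ℝ) < (i : ℝ) + 2 := by positivity
      have h2 : Real.log (((i + 1 : ℕ) : ℝ) + 2) ≤ Real.log ((i : ℝ) + 2) + 1 / ((i : ℝ) + 2) := by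
        have h3 : ((i + 1 : ℕ) : ℝ) + 2 = ((i : ℝ) + 2) * (1 + 1 / ((i : ℝ) + 2)) := by
          push_cast
          field_simp
          ring
        rw [h3, Real.log_mul (by positivity) (by positivity)]
        have h4 := Real.log_le_sub_one_of_pos (show (0 : ℝ) < 1 + 1 / ((i : ℝ) + 2) by positivity)
        linarith
      have h5 : c / 4 * Real.log (((i + 1 : ℕ) : ℝ) + 2) ≤
          c / 4 * (Real.log ((i : ℝ) + 2) + 1 / ((i : ℝ) + 2)) :=
        mul_le_mul_of_nonneg_left h2 (by positivity)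
      have h6 : c / 4 * (1 / ((i : ℝ) + 2)) ≤ c / ((i : ℝ) + 2) := by
        rw [mul_one_div]
        exact div_le_div_of_nonneg_right (by linarith) hip.le
      linarith
  refine ⟨C' + 4 / c, by positivity, fun i => ⟨?_, fun hi => ?_⟩⟩
  · have h1 := hA i
    have h2 : 0 < 4 / c := by positivity
    linarith
  · have h1 := hlog i hi
    have h2 : 1 / (C' + 4 / c) ≤ c / 4 := by
      have h3 : c / 4 = 1 / (4 / c) := by
        field_simp
      rw [h3]
      exact one_div_le_one_div_of_le (by positivity) (by linarith)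
    have h4 : 0 ≤ Real.log ((i : ℝ) + 2) := Real.log_nonneg (by
      have : (0 : ℝ) ≤ i := Nat.cast_nonneg i
      linarith)
    exact (mul_le_mul_of_nonneg_right h2 h4).trans h1

end Pool.Agent.H152.TA.E4
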